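import Mathlib
import Pool.Agent.H33.Peak.PartD

/-!
# MP_345ce5_an, Q1 (negative answer for every `α ∈ (0,1]`)

For every `0 < α ≤ 1` there is a countable closed subset of the unit circle which is a peak set
for the analytic Lipschitz class `A_α` but is not a zero set for the Gevrey class `G_α`.
(The whole circle is a trivial example, with the peak function `1`; countability excludes it.)
The definitions of the statement are in `Pool.Agent.H33.Peak.Defs`.

* `0 < α < 1`: with `β = 1/α` and `T_k = 8^{-(k+k₀)}` the set consists of the point `1` and, for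
  every `k`, of `N_k ≈ T_k / d_k` points of spacing `d_k = ((k+k₀) T_k)^β` on the arc
  `[T_k, 2 T_k]`. The peak function is `f = 1 - 1/W`, with `W` the sum of `1/(1-z)` and of
  kernels `a_i (1/(1 - conj(ζ_i) z) + 1/(1 - (1-ρ_i) conj(ζ_i) z))`, `a_i = T_k^{β-1}`,
  `ρ_i = T_k^β`. Not a zero set: a function `g` of `G_α` that is flat on `E` satisfies
  `log |g(z)| ≤ A - c dist(z,E)^{-α}`, and the integral of `dist(ζ,E)^{-α}` over the circle
  diverges, because the `k`-th block contributes at least a constant times `1/(k+k₀)`.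
* `α = 1`: already a single point is not a zero set for `G_1`.
-/

open MeasureTheory Filter Topology Complex Metric Set PeakGevrey

namespace Pool.Agent.Results.MP_345ce5_an.PeakNotGevreyZero

/-- the case `0 < α < 1` -/
theorem result_lt_one {α : ℝ} (h0 : 0 < α) (h1 : α < 1) :
    ∃ E : Set ℂ, E.Countable ∧ IsPeakSet α E ∧ ¬ IsZeroSet α E := by
  have hβ : 1 < 1 / α := by
    rw [lt_div_iff₀ h0]; linarith
  obtain ⟨k₀, H⟩ := exists_cond hβ
  obtain ⟨c, C, hc, hC, hG⟩ := good_cfg H
  have hne : Nonempty (Idx (1 / α) k₀) := ⟨⟨0, ⟨0, by have := NN_ge H 0; omega⟩⟩⟩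
  exact ⟨(cfg H).E, (Set.countable_range _).insert _, (cfg H).isPeakSet h0 h1 hc hC hG,
    not_zero_cfg h0 H⟩

/-- a single point is a peak set for `A_1` -/
theorem peak_singleton : IsPeakSet 1 {1} := by
  refine ⟨isClosed_singleton, ?_, fun z => (1 + z) / 2, ⟨?_, ?_, 1, ?_⟩, ?_, ?_⟩
  · rw [singleton_subset_iff]; simp
  · exact Differentiable.differentiableOn (by fun_prop)
  · exact Continuous.continuousOn (by fun_prop)
  · intro x _ y _
    rw [Real.rpow_one]
    have : (1 + x) / 2 - (1 + y) / 2 = (x - y) / 2 := by ring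
    rw [this, norm_div]
    have h2 : ‖(2:ℂ)‖ = 2 := by simp
    rw [h2]
    linarith [norm_nonneg (x - y)]
  · intro ζ hζ
    rw [mem_singleton_iff.mp hζ]
    norm_num
  · intro ζ hζ hne
    have hn : ‖ζ‖ = 1 := by simpa using hζ
    have hne' : ζ ≠ 1 := fun h => hne (by rw [h]; rfl)
    have h2 : ‖(2:ℂ)‖ = 2 := by simp
    rw [norm_div, h2, div_lt_one (by norm_num)]
    have hle : ‖1 + ζ‖ ≤ 2 := by
      calc ‖1 + ζ‖ ≤ ‖(1:ℂ)‖ + ‖ζ‖ := norm_add_le _ _
        _ = 2 := by rw [hn, norm_one]; norm_num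
    refine lt_of_le_of_ne hle ?_
    intro heq
    apply hne'
    have h3 : ‖1 + ζ‖ ^ 2 + ‖1 - ζ‖ ^ 2 = 4 := by
      have := parallelogram_law_with_norm ℝ (1:ℂ) ζ
      rw [hn, norm_one] at this
      nlinarith
    rw [heq] at h3
    have h4 : ‖1 - ζ‖ ^ 2 = 0 := by linarith
    have h5 : ‖1 - ζ‖ = 0 := by simpa using h4
    have h6 : 1 - ζ = 0 := norm_eq_zero.mp h5
    exact (sub_eq_zero.mp h6).symm

/-- a single point is not a zero set for `G_1` -/
theorem not_zero_singleton : ¬ IsZeroSet 1 {1} := by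
  have hpi := Real.pi_gt_three
  have hle : ∀ k : ℕ, (1 / 2 : ℝ) ^ k ≤ 1 := fun k => pow_le_one₀ (by norm_num) (by norm_num)
  have hsucc : ∀ k : ℕ, (1 / 2 : ℝ) ^ (k + 1) = (1 / 2) ^ k / 2 := fun k => by
    rw [pow_succ]; ring
  have hpos : ∀ k : ℕ, 0 < (1 / 2 : ℝ) ^ k := fun k => by positivity
  have hanti : ∀ i j : ℕ, i < j → (1 / 2 : ℝ) ^ j ≤ (1 / 2) ^ (i + 1) := fun i j h =>
    pow_le_pow_of_le_one (by norm_num) (by norm_num) h
  apply not_isZeroSet one_pos (fun k => (1 / 2 : ℝ) ^ (k + 1)) (fun k => (1 / 2 : ℝ) ^ k)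
    (fun k => (1 / 2 : ℝ) ^ k)
  · intro k
    have := hsucc k
    have := hpos k
    linarith
  · intro k; exact (hpos (k + 1)).le
  · intro k
    have := hle k
    linarith
  · intro i j hij
    rw [Set.disjoint_left]
    intro t ht ht'
    simp only [mem_Ioc] at ht ht'
    rcases lt_trichotomy i j with h | h | h
    · have := hanti i j h
      linarith [ht.1, ht'.2]
    · exact hij h
    · have := hanti j i h
      linarith [ht.2, ht'.1]
  · intro k; exact hpos k
  · intro k t ht
    refine ⟨1, rfl, ?_⟩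
    have h1 := chord_le t 0
    have h0 : circleMap 0 1 0 = 1 := by simp [circleMap]
    rw [h0, sub_zero] at h1
    have h2 : 0 < t := (hpos (k + 1)).trans ht.1
    rw [abs_of_pos h2] at h1
    exact h1.trans ht.2
  · have hterm : ∀ k : ℕ, ((1 / 2 : ℝ) ^ k - (1 / 2) ^ (k + 1)) * ((1 / 2 : ℝ) ^ k) ^ (-1 : ℝ) =
        1 / 2 := by
      intro k
      have h1 := hsucc k
      have h2 := hpos k
      rw [h1, Real.rpow_neg_one]
      field_simp
      ring
    have hsum : (fun K : ℕ => ∑ k ∈ Finset.range K,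
        ((1 / 2 : ℝ) ^ k - (1 / 2) ^ (k + 1)) * ((1 / 2 : ℝ) ^ k) ^ (-1 : ℝ)) =
        fun K : ℕ => (K : ℝ) * (1 / 2) := by
      funext K
      rw [Finset.sum_congr rfl (fun k _ => hterm k)]
      simp
    rw [hsum]
    exact tendsto_natCast_atTop_atTop.atTop_mul_const (by norm_num)

/-- **Negative answer to Q1.** For every `0 < α ≤ 1` some countable closed subset of the unit
circle is a peak set for `A_α` but not a zero set for `G_α`. -/
theorem result : ∀ α : ℝ, 0 < α → α ≤ 1 →
    ∃ E : Set ℂ, E.Countable ∧ IsPeakSet α E ∧ ¬ IsZeroSet α E := by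
  intro α h0 h1
  rcases lt_or_eq_of_le h1 with h | h
  · exact result_lt_one h0 h
  · rw [h]
    exact ⟨{1}, Set.countable_singleton 1, peak_singleton, not_zero_singleton⟩

end Pool.Agent.Results.MP_345ce5_an.PeakNotGevreyZero
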